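import Mathlib
import Pool.Agent.Lib.MP_01c081_pr.Defs
import Pool.Agent.Lib.MP_01c081_pr.Tail

set_option autoImplicit false

open Filter Topology Finset MeasureTheory
open scoped ENNReal NNReal

namespace Pool.Agent.Results.MP_01c081_pr.TailNotNecessary

open Pool.Agent.Lib.MP_01c081_pr

noncomputable local instance instMS3 : MeasurableSpace ℤ_[2] := borel _
local instance instBS3 : BorelSpace ℤ_[2] := ⟨rfl⟩

/-- the probability of a long gap -/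
lemma palm_gap_lower (J : ℕ) {e : ℤ × ℤ} (he : e.1 + e.2 = 1) :
    (2 ^ mE J : ℝ≥0∞)⁻¹ * 2⁻¹ ≤ palm QQ {ω | gap e ω = 2 ^ nE J} := by
  unfold palm
  rw [ProbabilityTheory.cond_apply measurableSet_origin]
  have h1 : (1 : ℝ≥0∞) ≤ (QQ origin)⁻¹ := by
    rw [ENNReal.one_le_inv]
    exact prob_le_one
  have hms : MeasurableSet (origin ∩ {ω : Conf | gap e ω = 2 ^ nE J}) :=
    measurableSet_origin.inter (measurable_gap e (measurableSet_singleton _))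
  have h2 : (2 ^ mE J : ℝ≥0∞)⁻¹ * 2⁻¹ ≤ QQ (origin ∩ {ω : Conf | gap e ω = 2 ^ nE J}) := by
    refine (mu_lower J).trans ?_
    unfold QQ
    rw [Measure.map_apply measurable_conf hms]
    refine measure_mono_ae ?_
    filter_upwards [ae_good] with a ha hmem
    obtain ⟨⟨h3, h4⟩, h5⟩ := hmem
    rw [mem_ball_zero] at h3
    have h6 : ∀ j, J < j → ¬ (2 : ℤ_[2]) ^ mE j ∣ a := by
      intro j hj hd
      apply h5
      rw [mem_ball_zero]
      exact (dvd_mono (mE_mono (by omega))).trans hd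
    refine ⟨?_, ?_⟩
    · change conf a 0 = true
      rw [conf_true]; simpa using h4
    · have hconf : ∀ k : ℕ, (conf a ((0 : ℤ × ℤ) + (k : ℤ) • e) = true) ↔ a + (k : ℤ_[2]) ∈ Gset := by
        intro k
        rw [conf_true]
        have e1 : ((0 : ℤ × ℤ) + (k : ℤ) • e).1 + ((0 : ℤ × ℤ) + (k : ℤ) • e).2 = (k : ℤ) := by
          simp only [zero_add, Prod.smul_fst, Prod.smul_snd, smul_eq_mul]
          rw [← mul_add, he, mul_one]
        rw [e1]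
        push_cast
        exact Iff.rfl
      have hs : shift 0 (conf a) = conf a := by
        funext y; simp [shift]
      change gap e (conf a) = 2 ^ nE J
      rw [← hs]
      refine gap_eq (by positivity) ?_ ?_
      · rw [hconf]
        exact fwd2 h4 h3 h6
      · intro j hj hj2
        have := gap_zone h3 hj hj2
        rw [← hconf] at this
        simpa using this
  calc (2 ^ mE J : ℝ≥0∞)⁻¹ * 2⁻¹ ≤ 1 * QQ (origin ∩ {ω : Conf | gap e ω = 2 ^ nE J}) := by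
        rw [one_mul]; exact h2
    _ ≤ (QQ origin)⁻¹ * QQ (origin ∩ {ω : Conf | gap e ω = 2 ^ nE J}) := mul_le_mul' h1 le_rfl

lemma tail_fails (C : ℝ≥0) : ∃ N : ℕ, 1 ≤ N ∧ ∀ e : ℤ × ℤ, e.1 + e.2 = 1 → ¬ TailBound QQ C e N := by
  obtain ⟨J, hJ⟩ := pow_unbounded_of_one_lt (4 * (C : ℝ)) (one_lt_two)
  refine ⟨2 ^ nE J, Nat.one_le_two_pow, ?_⟩
  intro e he hT
  unfold TailBound at hT
  have h1 : (2 ^ nE J : ℝ≥0∞) * ((2 ^ mE J : ℝ≥0∞)⁻¹ * 2⁻¹) ≤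
      ∑' k : ℕ, if 2 ^ nE J ≤ k then (k : ℝ≥0∞) * palm QQ {ω | gap e ω = k} else 0 := by
    refine le_trans ?_ (ENNReal.le_tsum (2 ^ nE J))
    rw [if_pos le_rfl]
    push_cast
    exact mul_le_mul' le_rfl (palm_gap_lower J he)
  have h2 : ((2 ^ nE J : ℝ≥0∞) * ((2 ^ mE J : ℝ≥0∞)⁻¹ * 2⁻¹)) / 2 ≤ C / ((2 ^ nE J : ℕ) : ℝ≥0∞) :=
    (ENNReal.div_le_div h1 (mean_gap he)).trans hT
  have h3 : ((2 ^ nE J : ℝ≥0∞) * ((2 ^ mE J : ℝ≥0∞)⁻¹ * 2⁻¹)) / 2 * 2 ^ nE J ≤ C := by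
    have h4 : ((2 ^ nE J : ℕ) : ℝ≥0∞) = 2 ^ nE J := by push_cast; ring
    rw [h4] at h2
    exact ENNReal.mul_le_of_le_div h2
  have h5 : ((2 ^ nE J : ℝ≥0∞) * ((2 ^ mE J : ℝ≥0∞)⁻¹ * 2⁻¹)) / 2 * 2 ^ nE J = 2 ^ J / 4 := by
    have e1 : (2 : ℝ≥0∞) ^ nE J * 2 ^ nE J = 2 ^ mE J * 2 ^ J := by
      rw [← pow_add, ← pow_add, ← two_nE, two_mul]
    calc ((2 ^ nE J : ℝ≥0∞) * ((2 ^ mE J : ℝ≥0∞)⁻¹ * 2⁻¹)) / 2 * 2 ^ nE J
        = (2 ^ nE J * 2 ^ nE J) * (2 ^ mE J : ℝ≥0∞)⁻¹ * (2⁻¹ * 2⁻¹) := by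
          rw [div_eq_mul_inv]; ring
      _ = 2 ^ J * (2 ^ mE J * (2 ^ mE J : ℝ≥0∞)⁻¹) * (2⁻¹ * 2⁻¹) := by rw [e1]; ring
      _ = 2 ^ J / 4 := by
          rw [ENNReal.mul_inv_cancel (by positivity) (by finiteness), mul_one, div_eq_mul_inv,
            ← ENNReal.mul_inv (by norm_num) (by norm_num)]
          norm_num
  rw [h5] at h3
  have h6 : (2 : ℝ≥0∞) ^ J ≤ C * 4 := by
    rwa [ENNReal.div_le_iff (by norm_num) (by norm_num)] at h3
  have h7 : (2 : ℝ≥0) ^ J ≤ C * 4 := by exact_mod_cast h6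
  have h8 : (2 : ℝ) ^ J ≤ (C : ℝ) * 4 := by exact_mod_cast h7
  linarith

/-- There is a two-dimensional discrete point process whose walk is recurrent although the tail
condition (T) fails. -/
theorem result : ∃ Q : Measure Conf, IsPointProcess Q ∧ Recurrent Q ∧ ¬ CondT Q := by
  refine ⟨QQ, isPointProcess_QQ, recurrent_QQ, ?_⟩
  rintro ⟨C, _, hC⟩
  obtain ⟨N, hN, hfail⟩ := tail_fails C
  exact hfail (1, 0) (by norm_num) (hC N hN).1

end Pool.Agent.Results.MP_01c081_pr.TailNotNecessary
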